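import Pool.Agent.Y797.IV.Sim
import Pool.Agent.Y797.IV.Def
import Pool.Agent.Y797.IV.Unr
import Pool.Agent.Y797.CY.Unr
import Pool.Agent.TH690.SF.Smooth
set_option autoImplicit false

/-!
The fibrations `z + y_1 + ... + y_q + 1/(z y_1 ^ v_1 ... y_q ^ v_q) = λ ∏_e L_e` for arrangements in
general position whose vertices become integral after multiplication by `D`, `λ = μ D ^ (m + 1)`:
the symbols of the simplices are unramified.
-/

namespace Pool.Agent.Y778.SF

open scoped WithZero

open Pool.Agent.TH826.MK (KQ symb Unramified unitPart)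

open Pool.Agent.TH826.GA (cm vtx gam ku coe_ku)

open Pool.Agent.TH826.EF (onePart onePart_le mem_onePart_of_sum_lt)

open Pool.Agent.TH690.SF

open Pool.Agent.Y797.IV (Clears GenPos fx simplex_x_le simplex_val)

open Pool.Agent.Y797.CY (gam_ne)

variable {K : Type*} [Field K] {d m : ℕ} {q : ℕ} {w : Fin q → ℕ} {lam : K}
  {c : Fin (m + 1) → Fin (d + 1) → K} {a : Fin (m + 1) → K}

variable {L : Type*} [Field L] (f : SOpen w lam c a →+* L)

theorem map_sg' (hG : GenPos c a) {S : Fin (d + 2) → Fin (m + 1)} (hS : Function.Injective S)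
    (i : Fin (d + 2)) : f (sg w lam c a S i : SOpen w lam c a) =
      cE f (gam c S i) * fx (cE f) (xE f) c a (S i) := by
  unfold sg
  rw [Units.val_mul, map_mul, map_su]
  congr 1
  rw [Units.coe_map]
  show f (scst w lam c a (ku (gam c S i) : K)) = _
  rw [coe_ku (gam_ne hG hS i)]
  rfl

/-- The symbols are unramified at all discrete valuations. -/
theorem symb_mem_unitPart (hG : GenPos c a) (hc : ∀ e j, IsIntegral ℤ (c e j))
    (ha : ∀ e, IsIntegral ℤ (a e)) {D mu : K} (hD : Clears c a D) (hmu : IsIntegral ℤ mu)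
    (hlam : lam = mu * D ^ (m + 1))
    (v : Valuation L ℤᵐ⁰) {S : Fin (d + 2) → Fin (m + 1)} (hS : Function.Injective S) :
    symb (fun l => Units.map (f : SOpen w lam c a →* L) (sent w lam c a S l)) ∈
      unitPart v (d + 1 + q + 1) := by
  classical
  obtain ⟨hD0, hDi, hDv⟩ := hD
  have hci : ∀ x : K, IsIntegral ℤ x → v (cE f x) ≤ 1 := fun x hx =>
    Pool.Agent.TH826.MK.val_le_one_of_integral v (map_isIntegral_int _ hx)
  set z : Fin (d + 2) → Lˣ := fun k => Units.map (f : SOpen w lam c a →* L) (sg w lam c a S k)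
    with hz
  set t : Fin (q + 1) → Lˣ := Fin.cons (Units.map (f : SOpen w lam c a →* L) (uz w lam c a))
    fun i => Units.map (f : SOpen w lam c a →* L) (uy w lam c a i) with ht
  set b : Fin (d + 1 + q + 1) → Lˣ :=
    fun l => Units.map (f : SOpen w lam c a →* L) (sent w lam c a S l) with hb
  have ht0 : (t 0 : L) = zE f := rfl
  have hts : ∀ i : Fin q, (t i.succ : L) = yE f i := fun i => rfl
  have hzv : ∀ k, (z k : L) = cE f (gam c S k) * fx (cE f) (xE f) c a (S k) :=
    fun k => map_sg' f hG hS k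
  have hbu : (fun k : Fin (d + 1) => b (iu d q k)) = fun k : Fin (d + 1) => z k.succ / z 0 := by
    funext k
    have h1 : sent w lam c a S (iu d q k) = sg w lam c a S k.succ / sg w lam c a S 0 := by
      unfold sent iu
      rw [Fin.cons_succ, Fin.append_left]
    show Units.map (f : SOpen w lam c a →* L) (sent w lam c a S (iu d q k)) = _
    rw [h1]
    exact map_div (Units.map (f : SOpen w lam c a →* L)) _ _
  have hby : (fun k : Fin (q + 1) => b (iy d q k)) = t := by
    funext k
    refine Fin.cases ?_ (fun i => ?_) k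
    · rfl
    · have h1 : sent w lam c a S (iy d q i.succ) = uy w lam c a i := by
        unfold sent iy
        rw [Fin.cons_succ, Fin.cons_succ, Fin.append_right]
      show Units.map (f : SOpen w lam c a →* L) (sent w lam c a S (iy d q i.succ)) = _
      rw [h1]
      rfl
  have hsum : ∑ k, (z k : L) = - cE f (∑ i, gam c S i * a (S i)) := by
    simp only [hzv]
    exact Pool.Agent.Y797.IV.sum_gx (cE f) (xE f) S
  by_cases hB : ∃ k, v (cE f (∑ i, gam c S i * a (S i))) < v (z k : L)
  · obtain ⟨k, hk⟩ := hB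
    obtain ⟨l, -, hl⟩ := Finset.exists_max_image Finset.univ (fun k => v (z k : L))
      ⟨k, Finset.mem_univ k⟩
    have h3 : symb (fun l : Fin (d + 1) => z l.succ / z 0) ∈ onePart v (d + 1) := by
      refine mem_onePart_of_sum_lt v z l (fun k => hl k (Finset.mem_univ k)) ?_
      rw [hsum, Valuation.map_neg]
      exact hk.trans_le (hl k (Finset.mem_univ k))
    exact onePart_le v (mem_onePart_of_comp v b (iu_injective d q) (by rw [hbu]; exact h3))
  · push Not at hB
    have hB' : ∀ k, v (cE f (gam c S k) * fx (cE f) (xE f) c a (S k)) ≤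
        v (cE f (∑ i, gam c S i * a (S i))) := fun k => by
      rw [← hzv]
      exact hB k
    have hDL : v (cE f D) ≠ 0 := by
      rw [Valuation.ne_zero_iff]
      exact (map_ne_zero _).2 hD0
    have hDle : v (cE f D) ≤ 1 := hci _ hDi
    set B : ℤᵐ⁰ := (v (cE f D))⁻¹ with hBdef
    have hB1 : 1 ≤ B := (one_le_inv₀ (zero_lt_iff.2 hDL)).2 hDle
    have hDB : v (cE f D) * B = 1 := mul_inv_cancel₀ hDL
    have hvt : ∀ T' : Fin (d + 1) → Fin (m + 1), (cm c T').det ≠ 0 → ∀ j,
        v (cE f (vtx c a T' j)) ≤ B := by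
      intro T' hT' j
      have h1 := hci _ (hDv T' hT' j)
      rw [map_mul, map_mul, mul_comm] at h1
      exact (le_mul_inv_iff₀ (zero_lt_iff.2 hDL)).2 (by simpa using h1) |>.trans_eq (one_mul _)
    have hft : ∀ T' : Fin (d + 1) → Fin (m + 1), (cm c T').det ≠ 0 → ∀ e,
        v (cE f (∑ j, c e j * vtx c a T' j - a e)) ≤ B := by
      intro T' hT' e
      rw [map_sub, map_sum]
      refine (v.map_sub _ _).trans (max_le ?_ ((hci _ (ha e)).trans hB1))
      refine Valuation.map_sum_le v fun j _ => ?_
      rw [map_mul, map_mul]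
      exact (mul_le_mul' (hci _ (hc e j)) (hvt T' hT' j)).trans_eq (one_mul _)
    have hx : ∀ j, v (xE f j) ≤ B := fun j => simplex_x_le v hG.1 hG.2 hS hB' hvt j
    have hle : ∀ e, v (lE f e) ≤ B := by
      intro e
      refine (v.map_sub _ _).trans (max_le ?_ ((hci _ (ha e)).trans hB1))
      refine Valuation.map_sum_le v fun j _ => ?_
      rw [map_mul]
      exact (mul_le_mul' (hci _ (hc e j)) (hx j)).trans_eq (one_mul _)
    have hle1 : ∀ e, v (cE f D) * v (lE f e) ≤ 1 := fun e =>
      (mul_le_mul' le_rfl (hle e)).trans_eq hDB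
    have hPeq : v (cE f lam * ∏ e, lE f e) = v (cE f mu) * ∏ e, (v (cE f D) * v (lE f e)) := by
      have hl2 : cE f lam = cE f mu * cE f D ^ (m + 1) := by
        rw [← map_pow, ← map_mul]
        exact congrArg (cE f) hlam
      rw [hl2, map_mul, map_mul, map_pow, map_prod, Finset.prod_mul_distrib, Finset.prod_const,
        Finset.card_univ, Fintype.card_fin, mul_assoc]
    have hPhi : v (cE f lam * ∏ e, lE f e) ≤ 1 := by
      rw [hPeq]
      exact mul_le_one' (hci _ hmu) (Finset.prod_le_one' fun e _ => hle1 e)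
    set wt : Fin (q + 1) → ℕ := Fin.cons 1 fun i => w i + 1 with hwt
    have hwt1 : ∀ l, 1 ≤ wt l := by
      intro l
      refine Fin.cases ?_ (fun i => ?_) l
      · exact le_rfl
      · rw [hwt, Fin.cons_succ]
        omega
    set W : Fin (q + 2) → Lˣ := Fin.cons (∏ i, t i ^ wt i)⁻¹ t with hW
    have hprod : ((∏ i, t i ^ wt i : Lˣ) : L) = zE f * ∏ i, yE f i ^ (w i + 1) := by
      rw [Units.coe_prod, Fin.prod_univ_succ, Units.val_pow_eq_pow_val, ht0, hwt, Fin.cons_zero,
        pow_one]
      congr 1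
    have hsumW : ∑ k, (W k : L) = cE f lam * ∏ e, lE f e := by
      rw [Fin.sum_univ_succ, ← zE_eq f]
      have h0 : ((W 0 : Lˣ) : L) = (zE f * ∏ i, yE f i ^ (w i + 1))⁻¹ := by
        rw [hW, Fin.cons_zero, Units.val_inv_eq_inv_val, hprod]
      have h1 : ∑ k : Fin (q + 1), ((W k.succ : Lˣ) : L) = zE f + ∑ i, yE f i := by
        rw [hW]
        simp only [Fin.cons_succ]
        rw [Fin.sum_univ_succ, ht0]
        simp only [hts]
      rw [h0, h1]
    by_cases hlt : ∃ l, v (cE f lam * ∏ e, lE f e) < v (W l : L)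
    · obtain ⟨l, hl⟩ := hlt
      have h1 : symb t ∈ onePart v (q + 1) := block_mem_onePart v t wt l (by
        rw [← hW, hsumW]
        exact hl)
      exact onePart_le v (mem_onePart_of_comp v b (iy_injective d q) (by rw [hby]; exact h1))
    · push Not at hlt
      have hw1 : ∀ l, v (W l : L) ≤ 1 := fun l => (hlt l).trans hPhi
      have hti1 : ∀ i, v (t i : L) ≤ 1 := by
        intro i
        have h1 := hw1 i.succ
        rwa [hW, Fin.cons_succ] at h1
      have hP1 : 1 ≤ ∏ i, v (t i : L) ^ wt i := by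
        have h1 := hw1 0
        rw [hW, Fin.cons_zero, Units.val_inv_eq_inv_val, Units.coe_prod, map_inv₀, map_prod] at h1
        simp only [Units.val_pow_eq_pow_val, map_pow] at h1
        have h0 : 0 < ∏ i, v (t i : L) ^ wt i := by
          rw [zero_lt_iff]
          exact Finset.prod_ne_zero_iff.2 fun i _ =>
            pow_ne_zero _ ((Valuation.ne_zero_iff v).2 (t i).ne_zero)
        rwa [inv_le_one₀ h0] at h1
      have hpow : ∀ l, v (t l : L) ^ wt l ≤ v (t l : L) := by
        intro l
        obtain ⟨k, hk⟩ := Nat.exists_eq_succ_of_ne_zero (Nat.one_le_iff_ne_zero.1 (hwt1 l))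
        rw [hk, pow_succ]
        calc _ ≤ 1 * v (t l : L) := mul_le_mul' (pow_le_one' (hti1 l) _) le_rfl
          _ = _ := one_mul _
      have hti : ∀ i, v (t i : L) = 1 := by
        intro l
        refine le_antisymm (hti1 l) (hP1.trans ?_)
        rw [← Finset.mul_prod_erase _ _ (Finset.mem_univ l)]
        calc v (t l : L) ^ wt l * ∏ x ∈ Finset.univ.erase l, v (t x : L) ^ wt x
            ≤ v (t l : L) * 1 := mul_le_mul'
              (hpow l)
              (Finset.prod_le_one' fun j _ => pow_le_one' (hti1 j) _)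
          _ = v (t l : L) := mul_one _
      have hweq0 : 1 ≤ v (W (Fin.succ 0) : L) := by
        rw [hW, Fin.cons_succ, hti]
      have hu3 : v (cE f lam * ∏ e, lE f e) = 1 := by
        exact le_antisymm hPhi (hweq0.trans (hlt _))
      rw [hPeq] at hu3
      obtain ⟨-, hl1⟩ := Pool.Agent.TH333.CY.all_one hle1 (hci _ hmu) hu3
      have hall : ∀ e, v (fx (cE f) (xE f) c a e) = B := by
        intro e
        have h1 : v (cE f D) * v (fx (cE f) (xE f) c a e) = 1 := hl1 e
        rw [hBdef]
        exact eq_inv_of_mul_eq_one_right h1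
      have h0 : v (cE f (∑ i, gam c S i * a (S i))) ≠ 0 := by
        rw [Valuation.ne_zero_iff]
        exact (map_ne_zero _).2 (Pool.Agent.TH826.GA.const_ne hG.1 hG.2 hS)
      refine Submodule.subset_span ⟨_, fun l => ?_, rfl⟩
      refine Fin.cases ?_ (fun l => ?_) l
      · have h1 : b 0 = t 0 := rfl
        rw [h1]
        exact hti 0
      · refine Fin.addCases (fun k => ?_) (fun i => ?_) l
        · have h1 : b (Fin.castAdd q k).succ = z k.succ / z 0 := congrFun hbu k
          rw [h1, Units.val_div_eq_div_val, map_div₀, hzv, hzv,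
            simplex_val v hG.1 hS hB' hft hall, simplex_val v hG.1 hS hB' hft hall, div_self h0]
        · have h1 : b (Fin.natAdd (d + 1) i).succ = t i.succ := congrFun hby i.succ
          rw [h1]
          exact hti i.succ

theorem symb_mem_unramified (hG : GenPos c a) (hc : ∀ e j, IsIntegral ℤ (c e j))
    (ha : ∀ e, IsIntegral ℤ (a e)) {D mu : K} (hD : Clears c a D) (hmu : IsIntegral ℤ mu)
    (hlam : lam = mu * D ^ (m + 1))
    {S : Fin (d + 2) → Fin (m + 1)} (hS : Function.Injective S) :
    KQ.map (d + 1 + q + 1) f (symb (sent w lam c a S)) ∈ Unramified L (d + 1 + q + 1) := by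
  rw [KQ.map_symb]
  unfold Unramified
  simp only [Submodule.mem_iInf]
  intro v _
  exact symb_mem_unitPart f hG hc ha hD hmu hlam v hS

end Pool.Agent.Y778.SF
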